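import Pool.Agent.H180.NS.Stm

set_option autoImplicit false

namespace Pool.Agent.Q162.NS

theorem gen : Pool.Agent.H180.NS.S_Gen := by
  intro p q b hp hq hpq hq2 hb hns
  have := Fact.mk hq
  have : NeZero (q ^ b) := ⟨pow_ne_zero _ hq.ne_zero⟩
  have : IsCyclic (ZMod (q ^ b))ˣ := ZMod.isCyclic_units_of_prime_pow q hq hq2 b
  obtain ⟨g, hg⟩ := IsCyclic.exists_generator (α := (ZMod (q ^ b))ˣ)
  have hN : 0 < orderOf g := orderOf_pos g
  obtain ⟨s, t, ht, hNst⟩ := Nat.exists_eq_two_pow_mul_odd hN.ne'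
  have hcop : Nat.Coprime p (q ^ b) := Nat.Coprime.pow_right b ((Nat.coprime_primes hp hq).2 hpq)
  have hu : ((ZMod.unitOfCoprime p hcop : (ZMod (q ^ b))ˣ) : ZMod (q ^ b)) = (p : ZMod (q ^ b)) :=
    ZMod.coe_unitOfCoprime p hcop
  set u : (ZMod (q ^ b))ˣ := ZMod.unitOfCoprime p hcop with hudef
  obtain ⟨e, he⟩ : ∃ e : ℕ, g ^ e = u := mem_powers_iff_mem_zpowers.2 (hg u)
  have heodd : Odd e := by
    rcases Nat.even_or_odd e with h | h
    · exfalso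
      obtain ⟨c, hc⟩ := h
      apply hns
      have h1 : (p : ZMod (q ^ b)) = ((g : ZMod (q ^ b)) ^ c) * ((g : ZMod (q ^ b)) ^ c) := by
        rw [← hu, ← he, hc, Units.val_pow_eq_pow_val, pow_add]
      have h2 := congrArg (ZMod.castHom (dvd_pow_self q hb.ne') (ZMod q)) h1
      rw [map_natCast, map_mul] at h2
      exact ⟨_, h2⟩
    · exact h
  refine ⟨g ^ (2 ^ s), ?_, ?_⟩
  · have : orderOf (g ^ (2 ^ s)) = t := by
      rw [orderOf_pow_of_dvd (by positivity) ⟨t, hNst⟩, hNst]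
      exact Nat.mul_div_cancel_left _ (by positivity)
    rw [this]
    exact ht
  · intro y
    obtain ⟨k, hk⟩ : ∃ k : ℕ, g ^ k = y := mem_powers_iff_mem_zpowers.2 (hg y)
    have hco : IsCoprime (e : ℤ) ((2 ^ s : ℕ) : ℤ) :=
      Nat.isCoprime_iff_coprime.2 (Nat.Coprime.pow_right s (Nat.coprime_two_right.2 heodd))
    obtain ⟨x, z, hxz⟩ := hco
    obtain ⟨i, hi⟩ : ∃ i : ℕ, u ^ i = u ^ (x * (k : ℤ)) :=
      mem_powers_iff_mem_zpowers.2 ⟨_, rfl⟩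
    have hmem : (g ^ (2 ^ s)) ^ (z * (k : ℤ)) ∈ Submonoid.powers (g ^ (2 ^ s)) :=
      mem_powers_iff_mem_zpowers.2 ⟨z * (k : ℤ), rfl⟩
    obtain ⟨j, hj⟩ : ∃ j : ℕ, (g ^ (2 ^ s)) ^ j = (g ^ (2 ^ s)) ^ (z * (k : ℤ)) := hmem
    refine ⟨i, j, ?_⟩
    have h3 : y = u ^ i * (g ^ (2 ^ s)) ^ j := by
      rw [hi, hj, ← he, ← hk, ← zpow_natCast g e, ← zpow_natCast g (2 ^ s), ← zpow_mul,
        ← zpow_mul, ← zpow_add, ← zpow_natCast g k]
      congr 1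
      linear_combination (-(k : ℤ)) * hxz
    rw [h3, Units.val_mul, Units.val_pow_eq_pow_val, Units.val_pow_eq_pow_val, hu]

end Pool.Agent.Q162.NS
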